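import Pool.Agent.Helper26.PW.MorKin

/-!
# The kinetic part of the Morawetz identity, any centre
-/

set_option autoImplicit false

namespace Pool.Agent.Helper26.PW

open MeasureTheory Filter
open Pool.Agent.Helper95.PW

theorem mt_pd {g : R3 → ℝ} (hg : Differentiable ℝ g) (a : R3) (i : Fin 3) (y : R3) :
    pd i (fun y => g (y - a)) y = pd i g (y - a) := by
  unfold pd
  have h1 : HasFDerivAt (fun y : R3 => y - a) (ContinuousLinearMap.id ℝ R3) y :=
    (hasFDerivAt_id y).sub_const a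
  have h2 := (hg (y - a)).hasFDerivAt.comp y h1
  have h3 : HasFDerivAt (fun y => g (y - a)) ((fderiv ℝ g (y - a)).comp
    (ContinuousLinearMap.id ℝ R3)) y := h2
  rw [h3.fderiv]
  rfl

theorem mt_cd {g : R3 → ℝ} (hg : ContDiff ℝ (⊤ : ℕ∞) g) (a : R3) :
    ContDiff ℝ (⊤ : ℕ∞) (fun y => g (y - a)) :=
  hg.comp (contDiff_id.sub contDiff_const)

theorem mt_pd2 {g : R3 → ℝ} (hg : ContDiff ℝ (⊤ : ℕ∞) g) (a : R3) (i j : Fin 3) (y : R3) :
    pd i (pd j (fun y => g (y - a))) y = pd i (pd j g) (y - a) := by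
  have h1 : pd j (fun y => g (y - a)) = fun y => pd j g (y - a) := by
    funext z
    exact mt_pd (hf_df hg) a j z
  rw [h1]
  exact mt_pd (hf_df (hf_cd hg _)) a i y

theorem mt_lap {g : R3 → ℝ} (hg : ContDiff ℝ (⊤ : ℕ∞) g) (a : R3) :
    lap (fun y => g (y - a)) = fun y => lap g (y - a) := by
  funext y
  unfold lap
  exact Finset.sum_congr rfl fun i _ => mt_pd2 hg a i i y

theorem mt_lap2 {g : R3 → ℝ} (hg : ContDiff ℝ (⊤ : ℕ∞) g) (a : R3) (y : R3) :
    lap (lap (fun y => g (y - a))) y = lap (lap g) (y - a) := by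
  rw [mt_lap hg a, mt_lap (Pool.Agent.Helper2.PW.stb_lap hg) a]

/-- kinetic part of the row MORM -/
theorem morAM {n : ℕ} (hI : ST_IBP) (hP : ST_PAN) (s : ℝ) (hs : 0 < s) (a : R3)
    (v : Cf n → ℝ) (hv : ContDiff ℝ (⊤ : ℕ∞) v) (hc : HasCompactSupport v) :
    ∫ x, (∑ k, mor s (x k - a)) * v x ^ 2 ≤
      -2 * ∫ x, (∑ k, ∑ i, dv k i (dv k i v) x) *
        Pg (fun y => Real.sqrt (nr (y - a) ^ 2 + s ^ 2)) v x := by
  have h0 : (fun y => Real.sqrt (nr (y - a) ^ 2 + s ^ 2)) = fun y => mw s (y - a) := by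
    have h := mw_eq s
    funext y
    rw [h]
  rw [h0, mk_id hI hP (fun y => mw s (y - a)) (mt_cd (mw_cd hs) a) v hv hc]
  have h1 : ∀ x : Cf n, (∑ k, -(1 / 2) * lap (lap (fun y => mw s (y - a))) (x k)) * v x ^ 2 =
      (∑ k, mor s (x k - a)) * v x ^ 2 := by
    intro x
    rw [Finset.sum_congr rfl fun k _ => by rw [mt_lap2 (mw_cd hs) a, mw_mor hs (x k - a)]]
  have h2 : 0 ≤ ∫ x, ∑ k, ∑ i, ∑ j, pd i (pd j (fun y => mw s (y - a))) (x k) *
      (dv k i v x * dv k j v x) := by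
    apply integral_nonneg
    intro x
    refine Finset.sum_nonneg fun k _ => ?_
    have h3 := mw_hess hs (x k - a) (fun i => dv k i v x)
    simp only [mt_pd2 (mw_cd hs) a]
    exact h3
  rw [integral_congr_ae (Eventually.of_forall h1)]
  linarith

end Pool.Agent.Helper26.PW
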